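import Mathlib

/-! Definitions for the construction on averages along sequences: the digit directions and the
cube root of unity. -/

namespace TwoConv

/-- The digit directions: `dir u` is the standard basis vector `e_u` of `ℤ⁴` for `u < 4`,
and `dir 4 = (1,1,1,1)`. -/
def dir (u : Fin 5) (i : ℕ) : ℤ := if u = 4 then 1 else if (u : ℕ) = i then 1 else 0

/-- the primitive cube root of unity `e^{2πi/3}` -/
noncomputable def zeta : ℂ := Complex.exp (2 * Real.pi * Complex.I / 3)

end TwoConv
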