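import Mathlib
import Pool.Agent.L5helper78.TC.Defs

/-! Digit arithmetic in `ZMod (3 r)` and the cubic form. -/

namespace TwoConv
namespace Comm

/-- the digit (block index) of a residue modulo `3 r` -/
def dig (r : ℕ) (v : ZMod (3 * r)) : ZMod 3 := (((v.val : ℤ) / (r : ℤ) : ℤ) : ZMod 3)

/-- a residue at distance at least `t` from the block boundaries -/
def gd (r t : ℕ) (v : ZMod (3 * r)) : Prop :=
  (t : ℤ) ≤ (v.val : ℤ) % r ∧ (v.val : ℤ) % r + t < r

lemma dig_intCast (r : ℕ) (hr : 0 < r) (z : ℤ) :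
    dig r (z : ZMod (3 * r)) = ((z / r : ℤ) : ZMod 3) := by
  unfold dig
  have : NeZero (3 * r) := ⟨by omega⟩
  rw [ZMod.val_intCast]
  have h1 : z = z % ((3 * r : ℕ) : ℤ) + (r : ℤ) * (3 * (z / ((3 * r : ℕ) : ℤ))) := by
    have := Int.emod_add_mul_ediv z ((3 * r : ℕ) : ℤ)
    push_cast at this ⊢
    linarith
  have hr' : (r : ℤ) ≠ 0 := by exact_mod_cast hr.ne'
  have h2 : z / (r : ℤ) = z % ((3 * r : ℕ) : ℤ) / r + 3 * (z / ((3 * r : ℕ) : ℤ)) := by
    conv_lhs => rw [h1]
    rw [Int.add_mul_ediv_left _ _ hr']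
  rw [h2]
  push_cast
  have h3 : (3 : ZMod 3) = 0 := by decide
  rw [h3]
  ring

lemma dig_add (r t : ℕ) (hr : 0 < r) (v : ZMod (3 * r)) (hv : gd r t v) (m e : ℤ)
    (he : |e| ≤ t) :
    dig r (v + (((r : ℤ) * m + e : ℤ) : ZMod (3 * r))) = dig r v + (m : ZMod 3) := by
  have : NeZero (3 * r) := ⟨by omega⟩
  have hr' : (r : ℤ) ≠ 0 := by exact_mod_cast hr.ne'
  have h1 : v + (((r : ℤ) * m + e : ℤ) : ZMod (3 * r))
      = (((v.val : ℤ) + ((r : ℤ) * m + e) : ℤ) : ZMod (3 * r)) := by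
    rw [Int.cast_add (v.val : ℤ)]
    congr 1
    rw [Int.cast_natCast, ZMod.natCast_zmod_val]
  rw [h1, dig_intCast r hr]
  unfold dig
  obtain ⟨h2, h3⟩ := hv
  rw [abs_le] at he
  have h4 : (v.val : ℤ) + ((r : ℤ) * m + e)
      = ((v.val : ℤ) % r + e) + r * ((v.val : ℤ) / r + m) := by
    have := Int.emod_add_mul_ediv (v.val : ℤ) r
    linarith
  rw [h4, Int.add_mul_ediv_left _ _ hr']
  have h5 : ((v.val : ℤ) % r + e) / r = 0 := by
    apply Int.ediv_eq_zero_of_lt <;> linarith
  rw [h5]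
  push_cast
  ring

open Classical in
lemma card_bad (r t : ℕ) (hr : 0 < r) [NeZero (3 * r)] :
    (Finset.univ.filter (fun v : ZMod (3 * r) => ¬ gd r t v)).card ≤ 6 * t := by
  set f : Fin 3 × (Fin t ⊕ Fin t) → ZMod (3 * r) := fun x =>
    match x.2 with
    | Sum.inl a => (((x.1 : ℕ) : ℤ) * r + (a : ℕ) : ℤ)
    | Sum.inr a => (((x.1 : ℕ) : ℤ) * r + (r - 1 - (a : ℕ)) : ℤ) with hf
  have h1 : (Finset.univ.filter (fun v : ZMod (3 * r) => ¬ gd r t v)) ⊆ Finset.univ.image f := by
    intro v hv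
    simp only [Finset.mem_filter, Finset.mem_univ, true_and] at hv
    rw [Finset.mem_image]
    have hlt : v.val < 3 * r := ZMod.val_lt v
    have hq : v.val / r < 3 := by
      rw [Nat.div_lt_iff_lt_mul hr]
      exact hlt
    have hmod : v.val % r < r := Nat.mod_lt _ hr
    have hdm : r * (v.val / r) + v.val % r = v.val := Nat.div_add_mod _ _
    have hv1 : (((v.val : ℕ) : ℤ) : ZMod (3 * r)) = v := by
      rw [Int.cast_natCast, ZMod.natCast_zmod_val]
    unfold gd at hv
    rw [not_and_or, not_le, not_lt] at hv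
    rcases hv with h | h
    · have h' : v.val % r < t := by
        have : ((v.val % r : ℕ) : ℤ) < t := by push_cast; exact h
        exact_mod_cast this
      refine ⟨(⟨v.val / r, hq⟩, Sum.inl ⟨v.val % r, h'⟩), Finset.mem_univ _, ?_⟩
      simp only [hf]
      refine Eq.trans (congrArg (Int.cast : ℤ → ZMod (3 * r)) ?_) hv1
      rw [mul_comm]
      exact_mod_cast hdm
    · have h' : (r - 1 - v.val % r) < t := by
        have : (r : ℤ) ≤ ((v.val % r : ℕ) : ℤ) + t := by push_cast; exact h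
        have h2 : r ≤ v.val % r + t := by exact_mod_cast this
        omega
      refine ⟨(⟨v.val / r, hq⟩, Sum.inr ⟨r - 1 - v.val % r, h'⟩), Finset.mem_univ _, ?_⟩
      simp only [hf]
      refine Eq.trans (congrArg (Int.cast : ℤ → ZMod (3 * r)) ?_) hv1
      have h3 : ((r - 1 - v.val % r : ℕ) : ℤ) = (r : ℤ) - 1 - ((v.val % r : ℕ) : ℤ) := by
        omega
      rw [h3]
      have h4 : ((r : ℤ) * ((v.val / r : ℕ) : ℤ)) + ((v.val % r : ℕ) : ℤ) = (v.val : ℤ) := by
        exact_mod_cast hdm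
      linarith
  refine (Finset.card_le_card h1).trans (Finset.card_image_le.trans ?_)
  simp only [Finset.card_univ, Fintype.card_prod, Fintype.card_sum, Fintype.card_fin]
  omega

/-- the elementary symmetric cubic form in four variables -/
def cub (a b c d : ZMod 3) : ZMod 3 := a * b * c + a * b * d + a * c * d + b * c * d

/-- the pairing of `(p,q,s,t)` with the gradient of `cub` at `(a,b,c,d)` -/
def grd (a b c d p q s t : ZMod 3) : ZMod 3 :=
  p * (b * c + b * d + c * d) + q * (a * c + a * d + c * d) + s * (a * b + a * d + b * d)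
    + t * (a * b + a * c + b * c)

lemma cub_identity (a b c d z : ZMod 3) (u : Fin 5) :
    cub (a + z * (dir u 0 : ℤ)) (b + z * (dir u 1 : ℤ)) (c + z * (dir u 2 : ℤ))
        (d + z * (dir u 3 : ℤ)) - cub a b c d
      - grd a b c d (z * (dir u 0 : ℤ)) (z * (dir u 1 : ℤ)) (z * (dir u 2 : ℤ))
        (z * (dir u 3 : ℤ))
      = if u = 4 then z else 0 := by
  have hz : ∀ z : ZMod 3, z * z * z = z := by decide
  have h3 : (3 : ZMod 3) = 0 := by decide
  fin_cases u
  · simp [dir, cub, grd]; ring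
  · simp [dir, cub, grd]; ring
  · simp [dir, cub, grd]; ring
  · simp [dir, cub, grd]; ring
  · simp only [dir, cub, grd]
    simp
    linear_combination (z * z * (a + b + c + d) + z * z * z) * h3 + hz z

end Comm
end TwoConv
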