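import Mathlib

/-! Skew products of a measure preserving `ℤ × ℤ` action by the coboundary-like cocycle
`∑ᶠ j, (Φ j (τ g p) - Φ j p)`. -/

open MeasureTheory

namespace TwoConv
namespace Comm

section Skew

variable {Ω A : Type*} [AddCommGroup A]
  (τ : ℤ × ℤ → Ω → Ω) (Φ : ℕ → Ω → A)

/-- the points at which all differences are finitely supported -/
def Yset : Set Ω := {p | ∀ g, {j | Φ j (τ g p) ≠ Φ j p}.Finite}

open Classical in
/-- the cocycle -/
noncomputable def kap (g : ℤ × ℤ) (p : Ω) : A :=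
  if p ∈ Yset τ Φ then ∑ᶠ j, (Φ j (τ g p) - Φ j p) else 0

variable {τ Φ}

lemma Yset_shift (hadd : ∀ g h p, τ (g + h) p = τ g (τ h p)) (h : ℤ × ℤ) {p : Ω}
    (hp : p ∈ Yset τ Φ) : τ h p ∈ Yset τ Φ := by
  intro g
  refine ((hp (g + h)).union (hp h)).subset ?_
  intro j hj
  simp only [Set.mem_ofPred_eq, Set.mem_union] at hj ⊢
  rw [hadd]
  by_contra hcon
  push Not at hcon
  exact hj (hcon.1.trans hcon.2.symm)

lemma Yset_shift_iff (hadd : ∀ g h p, τ (g + h) p = τ g (τ h p)) (h0 : ∀ p, τ 0 p = p)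
    (h : ℤ × ℤ) {p : Ω} : τ h p ∈ Yset τ Φ ↔ p ∈ Yset τ Φ := by
  refine ⟨fun hp => ?_, Yset_shift hadd h⟩
  have := Yset_shift hadd (-h) hp
  rwa [← hadd, neg_add_cancel, h0] at this

lemma kap_add (hadd : ∀ g h p, τ (g + h) p = τ g (τ h p)) (h0 : ∀ p, τ 0 p = p)
    (g h : ℤ × ℤ) (p : Ω) : kap τ Φ (g + h) p = kap τ Φ g (τ h p) + kap τ Φ h p := by
  classical
  unfold kap
  by_cases hp : p ∈ Yset τ Φ
  · have hp' : τ h p ∈ Yset τ Φ := Yset_shift hadd h hp
    rw [if_pos hp, if_pos hp', if_pos hp, ← finsum_add_distrib]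
    · apply finsum_congr
      intro j
      rw [hadd]
      abel
    · refine (hp' g).subset ?_
      intro j hj
      rw [Function.mem_support] at hj
      simp only [Set.mem_ofPred_eq]
      intro hcon
      exact hj (sub_eq_zero.mpr hcon)
    · refine (hp h).subset ?_
      intro j hj
      rw [Function.mem_support] at hj
      simp only [Set.mem_ofPred_eq]
      intro hcon
      exact hj (sub_eq_zero.mpr hcon)
  · have hp' : τ h p ∉ Yset τ Φ := fun hc => hp ((Yset_shift_iff hadd h0 h).mp hc)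
    rw [if_neg hp, if_neg hp', if_neg hp, add_zero]

lemma kap_zero (h0 : ∀ p, τ 0 p = p) (p : Ω) : kap τ Φ 0 p = 0 := by
  classical
  unfold kap
  split_ifs
  · simp [h0]
  · rfl

variable [MeasurableSpace Ω] [MeasurableSpace A] [Countable A] [MeasurableSingletonClass A]

lemma measurableSet_Yset (hτ : ∀ g, Measurable (τ g)) (hΦ : ∀ j, Measurable (Φ j)) :
    MeasurableSet (Yset τ Φ) := by
  have h1 : Yset τ Φ = ⋂ g : ℤ × ℤ, ⋃ J : ℕ, ⋂ j : ℕ, ⋂ (_ : J ≤ j),
      {p | Φ j (τ g p) = Φ j p} := by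
    ext p
    simp only [Set.mem_iInter, Set.mem_iUnion, Set.mem_ofPred_eq]
    constructor
    · intro hp g
      obtain ⟨J, hJ⟩ := (hp g).bddAbove
      refine ⟨J + 1, fun j hj => ?_⟩
      by_contra hcon
      have := hJ hcon
      omega
    · intro hp g
      obtain ⟨J, hJ⟩ := hp g
      refine (Set.finite_lt_nat J).subset ?_
      intro j hj
      simp only [Set.mem_ofPred_eq] at hj ⊢
      by_contra hcon
      exact hj (hJ j (not_lt.mp hcon))
  rw [h1]
  refine MeasurableSet.iInter fun g => MeasurableSet.iUnion fun J => MeasurableSet.iInter fun j =>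
    MeasurableSet.iInter fun _ => ?_
  exact measurableSet_eq_fun ((hΦ j).comp (hτ g)) (hΦ j)

lemma measurable_kap (hτ : ∀ g, Measurable (τ g)) (hΦ : ∀ j, Measurable (Φ j)) (g : ℤ × ℤ) :
    Measurable (kap τ Φ g) := by
  classical
  have hfin : ∀ (J : ℕ), Measurable (fun p => ∑ j ∈ Finset.range J, (Φ j (τ g p) - Φ j p)) := by
    intro J
    induction J with
    | zero => simp
    | succ J ih =>
      simp only [Finset.sum_range_succ]
      have hpair : Measurable (fun p => ((∑ j ∈ Finset.range J, (Φ j (τ g p) - Φ j p)),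
          (Φ J (τ g p), Φ J p))) := ih.prodMk (((hΦ J).comp (hτ g)).prodMk (hΦ J))
      exact (measurable_of_countable (fun x : A × A × A => x.1 + (x.2.1 - x.2.2))).comp hpair
  refine measurable_to_countable' ?_
  intro a
  have h1 : kap τ Φ g ⁻¹' {a} = (Yset τ Φ ∩ ⋃ J : ℕ, ((⋂ j : ℕ, ⋂ (_ : J ≤ j),
      {p | Φ j (τ g p) = Φ j p}) ∩ {p | ∑ j ∈ Finset.range J, (Φ j (τ g p) - Φ j p) = a}))
      ∪ ((Yset τ Φ)ᶜ ∩ {p | (0 : A) = a}) := by
    ext p
    simp only [Set.mem_preimage, Set.mem_singleton_iff, Set.mem_union, Set.mem_inter_iff,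
      Set.mem_iUnion, Set.mem_iInter, Set.mem_ofPred_eq, Set.mem_compl_iff]
    unfold kap
    by_cases hp : p ∈ Yset τ Φ
    · rw [if_pos hp]
      simp only [hp, true_and, not_true, false_and, or_false]
      obtain ⟨J, hJ⟩ := (hp g).bddAbove
      have hJ' : ∀ j, J + 1 ≤ j → Φ j (τ g p) = Φ j p := by
        intro j hj
        by_contra hcon
        have := hJ hcon
        omega
      have hval : ∀ K, (∀ j, K ≤ j → Φ j (τ g p) = Φ j p) →
          ∑ᶠ j, (Φ j (τ g p) - Φ j p) = ∑ j ∈ Finset.range K, (Φ j (τ g p) - Φ j p) := by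
        intro K hK
        apply finsum_eq_sum_of_support_subset
        intro j hj
        rw [Function.mem_support] at hj
        simp only [Finset.coe_range, Set.mem_Iio]
        by_contra hcon
        exact hj (sub_eq_zero.mpr (hK j (not_lt.mp hcon)))
      constructor
      · intro h
        exact ⟨J + 1, hJ', by rw [← hval (J + 1) hJ']; exact h⟩
      · rintro ⟨K, hK, h⟩
        rw [hval K hK]
        exact h
    · rw [if_neg hp]
      simp [hp]
  rw [h1]
  refine ((measurableSet_Yset hτ hΦ).inter (MeasurableSet.iUnion fun J =>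
    MeasurableSet.inter (MeasurableSet.iInter fun j => MeasurableSet.iInter fun _ => ?_) ?_)).union
    ((measurableSet_Yset hτ hΦ).compl.inter (MeasurableSet.const _))
  · exact measurableSet_eq_fun ((hΦ j).comp (hτ g)) (hΦ j)
  · exact (hfin J) (measurableSet_singleton a)

variable (τ Φ) in
/-- the skew product -/
noncomputable def Smap (g : ℤ × ℤ) (q : Ω × A) : Ω × A := (τ g q.1, q.2 + kap τ Φ g q.1)

omit [MeasurableSpace Ω] [MeasurableSpace A] [Countable A] [MeasurableSingletonClass A] in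
lemma Smap_add (hadd : ∀ g h p, τ (g + h) p = τ g (τ h p)) (h0 : ∀ p, τ 0 p = p)
    (g h : ℤ × ℤ) (q : Ω × A) : Smap τ Φ (g + h) q = Smap τ Φ g (Smap τ Φ h q) := by
  unfold Smap
  ext1
  · simp only [hadd]
  · change q.2 + kap τ Φ (g + h) q.1 = q.2 + kap τ Φ h q.1 + kap τ Φ g (τ h q.1)
    rw [kap_add hadd h0]
    abel

omit [MeasurableSpace Ω] [MeasurableSpace A] [Countable A] [MeasurableSingletonClass A] in
lemma Smap_zero (h0 : ∀ p, τ 0 p = p) (q : Ω × A) : Smap τ Φ 0 q = q := by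
  unfold Smap
  rw [h0, kap_zero h0, add_zero]

lemma measurable_Smap (hτ : ∀ g, Measurable (τ g)) (hΦ : ∀ j, Measurable (Φ j)) (g : ℤ × ℤ) :
    Measurable (Smap τ Φ g) := by
  unfold Smap
  refine ((hτ g).comp measurable_fst).prodMk ?_
  have hpair : Measurable (fun q : Ω × A => (q.2, kap τ Φ g q.1)) :=
    measurable_snd.prodMk ((measurable_kap hτ hΦ g).comp measurable_fst)
  exact (measurable_of_countable (fun x : A × A => x.1 + x.2)).comp hpair

/-- the skew product as a measurable equivalence -/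
noncomputable def Sequiv (hadd : ∀ g h p, τ (g + h) p = τ g (τ h p)) (h0 : ∀ p, τ 0 p = p)
    (hτ : ∀ g, Measurable (τ g)) (hΦ : ∀ j, Measurable (Φ j)) (g : ℤ × ℤ) :
    (Ω × A) ≃ᵐ (Ω × A) where
  toFun := Smap τ Φ g
  invFun := Smap τ Φ (-g)
  left_inv q := by rw [← Smap_add hadd h0, neg_add_cancel, Smap_zero h0]
  right_inv q := by rw [← Smap_add hadd h0, add_neg_cancel, Smap_zero h0]
  measurable_toFun := measurable_Smap hτ hΦ g
  measurable_invFun := measurable_Smap hτ hΦ (-g)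

lemma Sequiv_apply (hadd : ∀ g h p, τ (g + h) p = τ g (τ h p)) (h0 : ∀ p, τ 0 p = p)
    (hτ : ∀ g, Measurable (τ g)) (hΦ : ∀ j, Measurable (Φ j)) (g : ℤ × ℤ) (q : Ω × A) :
    Sequiv hadd h0 hτ hΦ g q = Smap τ Φ g q := rfl

/-- powers of the skew product -/
lemma Sequiv_zpow (hadd : ∀ g h p, τ (g + h) p = τ g (τ h p)) (h0 : ∀ p, τ 0 p = p)
    (hτ : ∀ g, Measurable (τ g)) (hΦ : ∀ j, Measurable (Φ j)) (g : ℤ × ℤ) (n : ℤ)
    (q : Ω × A) :
    ((Sequiv hadd h0 hτ hΦ g).toEquiv ^ n) q = Smap τ Φ (n • g) q := by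
  have key : ∀ n : ℤ, (Sequiv hadd h0 hτ hΦ g).toEquiv ^ n
      = (Sequiv hadd h0 hτ hΦ (n • g)).toEquiv := by
    intro n
    induction n using Int.induction_on with
    | zero =>
      ext1 q
      simp only [zpow_zero, Equiv.Perm.coe_one, id_eq, zero_smul]
      exact (Smap_zero h0 q).symm
    | succ n ih =>
      rw [zpow_add_one, ih]
      ext1 q
      rw [add_smul, one_smul]
      exact (Smap_add hadd h0 _ _ q).symm
    | pred n ih =>
      rw [zpow_sub_one, ih]
      ext1 q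
      rw [sub_smul, one_smul, sub_eq_add_neg]
      exact (Smap_add hadd h0 _ _ q).symm
  rw [key n]
  rfl

lemma Sequiv_measurePreserving (hadd : ∀ g h p, τ (g + h) p = τ g (τ h p))
    (h0 : ∀ p, τ 0 p = p) (hΦ : ∀ j, Measurable (Φ j))
    (ν : Measure Ω) [IsProbabilityMeasure ν] (ρ : Measure A) [IsProbabilityMeasure ρ]
    (hν : ∀ g, MeasurePreserving (τ g) ν ν) (hρ : ∀ a : A, ρ.map (fun x => x + a) = ρ)
    (g : ℤ × ℤ) :
    MeasurePreserving (Sequiv hadd h0 (fun g => (hν g).measurable) hΦ g)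
      (ν.prod ρ) (ν.prod ρ) := by
  have h1 := MeasurePreserving.skew_product (μa := ν) (μb := ν) (μc := ρ) (μd := ρ)
    (f := τ g) (hν g) (g := fun p x => x + kap τ Φ g p)
    (by
      have := (measurable_Smap (fun g => (hν g).measurable) hΦ g).snd
      exact this)
    (Filter.Eventually.of_forall fun p => hρ _)
  exact h1

end Skew

end Comm
end TwoConv
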