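import Mathlib
import Pool.Agent.L5helper78.TC.Dig
import Pool.Agent.L5helper78.TC.Skew

/-! The commuting system that sees the weight `w` exactly (up to a set of small measure). -/

open MeasureTheory Filter Topology

namespace TwoConv
namespace Comm

/-! ### the uniform measure -/

/-- the uniform measure on `ZMod m` -/
noncomputable def unif (m : ℕ) [NeZero m] : Measure (ZMod m) :=
  (PMF.uniformOfFintype (ZMod m)).toMeasure

instance (m : ℕ) [NeZero m] : IsProbabilityMeasure (unif m) := by
  unfold unif; infer_instance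

lemma unif_apply (m : ℕ) [NeZero m] (s : Set (ZMod m)) :
    unif m s = (s.ncard : ENNReal) / m := by
  classical
  unfold unif
  rw [PMF.toMeasure_uniformOfFintype_apply _ MeasurableSet.of_discrete, ZMod.card,
    ← Nat.card_eq_fintype_card]
  rfl

lemma unif_map_add (m : ℕ) [NeZero m] (a : ZMod m) : (unif m).map (fun x => x + a) = unif m := by
  classical
  ext s hs
  rw [Measure.map_apply (measurable_of_countable _) hs, unif_apply, unif_apply]
  congr 2
  have h1 : (fun x => x + a) '' ((fun x => x + a) ⁻¹' s) = s :=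
    Set.image_preimage_eq s (fun y => ⟨y - a, by simp⟩)
  conv_rhs => rw [← h1]
  rw [Set.ncard_image_of_injective _ (add_left_injective a)]

/-! ### the system -/

section Sys

variable (r : ℕ → ℕ)

/-- the base group -/
abbrev Base : Type := ∀ k, ZMod (3 * r k)

/-- the shift action -/
def tau (g : ℤ × ℤ) (p : Base r × Base r) : Base r × Base r :=
  (fun k => p.1 k + (g.1 : ZMod (3 * r k)), fun k => p.2 k + (g.2 : ZMod (3 * r k)))

/-- the functions whose coboundaries are added up -/
def Phi (j : ℕ) (p : Base r × Base r) : ZMod 3 × ZMod 3 :=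
  (cub (dig _ (p.1 (4 * j + 0))) (dig _ (p.1 (4 * j + 1))) (dig _ (p.1 (4 * j + 2)))
      (dig _ (p.1 (4 * j + 3))),
    - grd (dig _ (p.1 (4 * j + 0))) (dig _ (p.1 (4 * j + 1))) (dig _ (p.1 (4 * j + 2)))
      (dig _ (p.1 (4 * j + 3)))
      (dig _ (p.2 (4 * j + 0))) (dig _ (p.2 (4 * j + 1))) (dig _ (p.2 (4 * j + 2)))
      (dig _ (p.2 (4 * j + 3))))

lemma tau_add (g h : ℤ × ℤ) (p : Base r × Base r) :
    tau r (g + h) p = tau r g (tau r h p) := by
  unfold tau
  ext1
  · funext k
    simp only [Prod.fst_add, Int.cast_add]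
    ring
  · funext k
    simp only [Prod.snd_add, Int.cast_add]
    ring

lemma tau_zero (p : Base r × Base r) : tau r 0 p = p := by
  unfold tau
  ext1 <;> · funext k; simp

lemma meas4 {Ω : Type*} [MeasurableSpace Ω]
    (f : ZMod 3 → ZMod 3 → ZMod 3 → ZMod 3 → ZMod 3) {a b c d : Ω → ZMod 3}
    (ha : Measurable a) (hb : Measurable b) (hc : Measurable c) (hd : Measurable d) :
    Measurable (fun p => f (a p) (b p) (c p) (d p)) := by
  have h := (ha.prodMk hb).prodMk (hc.prodMk hd)
  exact (measurable_of_countable (fun x : (ZMod 3 × ZMod 3) × (ZMod 3 × ZMod 3) =>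
    f x.1.1 x.1.2 x.2.1 x.2.2)).comp h

lemma meas8 {Ω : Type*} [MeasurableSpace Ω]
    (f : ZMod 3 → ZMod 3 → ZMod 3 → ZMod 3 → ZMod 3 → ZMod 3 → ZMod 3 → ZMod 3 → ZMod 3)
    {a b c d a' b' c' d' : Ω → ZMod 3}
    (ha : Measurable a) (hb : Measurable b) (hc : Measurable c) (hd : Measurable d)
    (ha' : Measurable a') (hb' : Measurable b') (hc' : Measurable c') (hd' : Measurable d') :
    Measurable (fun p => f (a p) (b p) (c p) (d p) (a' p) (b' p) (c' p) (d' p)) := by
  have h := ((ha.prodMk hb).prodMk (hc.prodMk hd)).prodMk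
    ((ha'.prodMk hb').prodMk (hc'.prodMk hd'))
  exact (measurable_of_countable (fun x : ((ZMod 3 × ZMod 3) × (ZMod 3 × ZMod 3)) ×
      ((ZMod 3 × ZMod 3) × (ZMod 3 × ZMod 3)) =>
    f x.1.1.1 x.1.1.2 x.1.2.1 x.1.2.2 x.2.1.1 x.2.1.2 x.2.2.1 x.2.2.2)).comp h

lemma measurable_Phi [∀ k, NeZero (3 * r k)] (j : ℕ) : Measurable (Phi r j) := by
  have h1 : ∀ k, Measurable (fun p : Base r × Base r => dig (r k) (p.1 k)) := fun k =>
    (measurable_of_countable (dig (r k))).comp ((measurable_pi_apply k).comp measurable_fst)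
  have h2 : ∀ k, Measurable (fun p : Base r × Base r => dig (r k) (p.2 k)) := fun k =>
    (measurable_of_countable (dig (r k))).comp ((measurable_pi_apply k).comp measurable_snd)
  have h3 := meas4 cub (h1 (4 * j + 0)) (h1 (4 * j + 1)) (h1 (4 * j + 2)) (h1 (4 * j + 3))
  have h4 := meas8 (fun a b c d p q s t => - grd a b c d p q s t)
    (h1 (4 * j + 0)) (h1 (4 * j + 1)) (h1 (4 * j + 2)) (h1 (4 * j + 3))
    (h2 (4 * j + 0)) (h2 (4 * j + 1)) (h2 (4 * j + 2)) (h2 (4 * j + 3))
  exact h3.prodMk h4

variable [∀ k, NeZero (3 * r k)]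

/-- the measure on the base group -/
noncomputable def mu : Measure (Base r) := Measure.infinitePi (fun k => unif (3 * r k))

instance : IsProbabilityMeasure (mu r) := by
  unfold mu; infer_instance

lemma mu_shift (n : ℤ) :
    MeasurePreserving (fun (x : Base r) k => x k + (n : ZMod (3 * r k))) (mu r) (mu r) := by
  refine ⟨?_, ?_⟩
  · exact measurable_pi_lambda _ fun k =>
      (measurable_of_countable (fun v : ZMod (3 * r k) => v + (n : ZMod (3 * r k)))).comp
        (measurable_pi_apply k)
  · unfold mu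
    rw [Measure.infinitePi_map_pi (μ := fun k => unif (3 * r k))
      (f := fun k (v : ZMod (3 * r k)) => v + (n : ZMod (3 * r k)))
      (fun k => measurable_of_countable _)]
    congr 1
    funext k
    exact unif_map_add _ _

lemma tau_mp (g : ℤ × ℤ) :
    MeasurePreserving (tau r g) ((mu r).prod (mu r)) ((mu r).prod (mu r)) :=
  (mu_shift r g.1).prod (mu_shift r g.2)

/-- the measure on the fibre -/
noncomputable def fib : Measure (ZMod 3 × ZMod 3) := (unif 3).prod (unif 3)

instance : IsProbabilityMeasure fib := by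
  unfold fib; infer_instance

lemma fib_map (a : ZMod 3 × ZMod 3) : fib.map (fun x => x + a) = fib := by
  have h : ∀ b : ZMod 3, MeasurePreserving (fun x => x + b) (unif 3) (unif 3) := fun b =>
    ⟨measurable_of_countable _, unif_map_add 3 b⟩
  exact ((h a.1).prod (h a.2)).map_eq

/-- the good points -/
def Good (t : ℕ → ℕ) : Set (Base r × Base r) :=
  {p | ∀ k, gd (r k) (t k) (p.1 k) ∧ gd (r k) (t k) (p.2 k)}

lemma measurableSet_Good (t : ℕ → ℕ) : MeasurableSet (Good r t) := by
  have h1 : Good r t = ⋂ k, ((fun p : Base r × Base r => p.1 k) ⁻¹' {v | gd (r k) (t k) v} ∩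
      (fun p : Base r × Base r => p.2 k) ⁻¹' {v | gd (r k) (t k) v}) := by
    ext p
    simp only [Good, Set.mem_ofPred_eq, Set.mem_iInter, Set.mem_inter_iff, Set.mem_preimage]
  rw [h1]
  exact MeasurableSet.iInter fun k => ((MeasurableSet.of_discrete).preimage
    ((measurable_pi_apply k).comp measurable_fst)).inter ((MeasurableSet.of_discrete).preimage
    ((measurable_pi_apply k).comp measurable_snd))

lemma measure_Good_compl (t : ℕ → ℕ) (hr : ∀ k, 0 < r k)
    (hlow : ∀ k, (t k : ℝ) ≤ (1 / 2) ^ k / 10 ^ 6 * r k) :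
    ((mu r).prod (mu r)) (Good r t)ᶜ ≤ ENNReal.ofReal (1 / 10 ^ 5) := by
  classical
  have hbad : ∀ k, unif (3 * r k) {v | ¬ gd (r k) (t k) v}
      ≤ ENNReal.ofReal ((1 / 2) ^ k * (2 / 10 ^ 6)) := by
    intro k
    rw [unif_apply]
    have h2 : ({v : ZMod (3 * r k) | ¬ gd (r k) (t k) v} : Set _).ncard ≤ 6 * t k := by
      have h1 := card_bad (r k) (t k) (hr k)
      rw [← Set.ncard_coe_finset] at h1
      simpa only [Finset.coe_filter, Finset.mem_univ, true_and] using h1
    have hpos : (0 : ℝ) < ((3 * r k : ℕ) : ℝ) := by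
      have := hr k
      positivity
    rw [← ENNReal.ofReal_natCast, ← ENNReal.ofReal_natCast (3 * r k),
      ← ENNReal.ofReal_div_of_pos hpos]
    apply ENNReal.ofReal_le_ofReal
    rw [div_le_iff₀ hpos]
    have h3 : (({v : ZMod (3 * r k) | ¬ gd (r k) (t k) v} : Set _).ncard : ℝ) ≤ 6 * t k := by
      exact_mod_cast h2
    have h4 := hlow k
    have h5 : (1 / 2 : ℝ) ^ k * (2 / 10 ^ 6) * ((3 * r k : ℕ) : ℝ)
        = 6 * ((1 / 2) ^ k / 10 ^ 6 * r k) := by
      push_cast
      ring
    rw [h5]
    linarith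
  have hsub : (Good r t)ᶜ ⊆ ⋃ k, ((fun p : Base r × Base r => p.1 k) ⁻¹' {v | ¬ gd (r k) (t k) v} ∪
      (fun p : Base r × Base r => p.2 k) ⁻¹' {v | ¬ gd (r k) (t k) v}) := by
    intro p hp
    simp only [Good, Set.mem_compl_iff, Set.mem_ofPred_eq, not_forall, not_and_or] at hp
    obtain ⟨k, hk⟩ := hp
    exact Set.mem_iUnion.mpr ⟨k, hk⟩
  have h1 : ∀ k, ((mu r).prod (mu r)) ((fun p : Base r × Base r => p.1 k) ⁻¹'
      {v | ¬ gd (r k) (t k) v}) ≤ ENNReal.ofReal ((1 / 2) ^ k * (2 / 10 ^ 6)) := by
    intro k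
    have hmp : MeasurePreserving (fun p : Base r × Base r => p.1 k) ((mu r).prod (mu r))
        (unif (3 * r k)) :=
      (measurePreserving_eval_infinitePi (fun k => unif (3 * r k)) k).comp measurePreserving_fst
    rw [hmp.measure_preimage (MeasurableSet.of_discrete).nullMeasurableSet]
    exact hbad k
  have h2 : ∀ k, ((mu r).prod (mu r)) ((fun p : Base r × Base r => p.2 k) ⁻¹'
      {v | ¬ gd (r k) (t k) v}) ≤ ENNReal.ofReal ((1 / 2) ^ k * (2 / 10 ^ 6)) := by
    intro k
    have hmp : MeasurePreserving (fun p : Base r × Base r => p.2 k) ((mu r).prod (mu r))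
        (unif (3 * r k)) :=
      (measurePreserving_eval_infinitePi (fun k => unif (3 * r k)) k).comp measurePreserving_snd
    rw [hmp.measure_preimage (MeasurableSet.of_discrete).nullMeasurableSet]
    exact hbad k
  calc ((mu r).prod (mu r)) (Good r t)ᶜ
      ≤ ∑' k, ((mu r).prod (mu r)) ((fun p : Base r × Base r => p.1 k) ⁻¹'
          {v | ¬ gd (r k) (t k) v} ∪
          (fun p : Base r × Base r => p.2 k) ⁻¹' {v | ¬ gd (r k) (t k) v}) :=
        (measure_mono hsub).trans (measure_iUnion_le _)
    _ ≤ ∑' k, ENNReal.ofReal ((1 / 2) ^ k * (4 / 10 ^ 6)) := by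
        refine ENNReal.tsum_le_tsum fun k => ?_
        refine (measure_union_le _ _).trans ((add_le_add (h1 k) (h2 k)).trans ?_)
        rw [← ENNReal.ofReal_add (by positivity) (by positivity)]
        apply ENNReal.ofReal_le_ofReal
        apply le_of_eq
        ring
    _ = ENNReal.ofReal (∑' k : ℕ, ((1 / 2) ^ k * (4 / 10 ^ 6))) := by
        rw [ENNReal.ofReal_tsum_of_nonneg (fun k => by positivity)]
        exact (summable_geometric_of_lt_one (by norm_num) (by norm_num)).mul_right _
    _ ≤ ENNReal.ofReal (1 / 10 ^ 5) := by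
        apply ENNReal.ofReal_le_ofReal
        rw [tsum_mul_right, tsum_geometric_of_lt_one (by norm_num) (by norm_num)]
        norm_num

/-! ### evaluation at good points -/

lemma dig_small (t : ℕ → ℕ) (hr : ∀ k, 0 < r k) {k : ℕ} {v : ZMod (3 * r k)}
    (hv : gd (r k) (t k) v) {n : ℤ} (hn : |n| ≤ t k) :
    dig (r k) (v + (n : ZMod (3 * r k))) = dig (r k) v := by
  have h := dig_add (r k) (t k) (hr k) v hv 0 n hn
  simpa using h

lemma Good_subset_Yset (t : ℕ → ℕ) (hr : ∀ k, 0 < r k) (ht : ∀ k, k ≤ t k)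
    {p : Base r × Base r} (hp : p ∈ Good r t) : p ∈ Yset (tau r) (Phi r) := by
  intro g
  refine (Set.finite_lt_nat (g.1.natAbs + g.2.natAbs)).subset ?_
  intro j hj
  simp only [Set.mem_ofPred_eq] at hj ⊢
  by_contra hcon
  apply hj
  have hp' : ∀ k, gd (r k) (t k) (p.1 k) ∧ gd (r k) (t k) (p.2 k) := hp
  have h1 : ∀ k, j ≤ k → dig (r k) (p.1 k + (g.1 : ZMod (3 * r k))) = dig (r k) (p.1 k) := by
    intro k hk
    apply dig_small r t hr (hp' k).1
    have := ht k
    rw [Int.abs_eq_natAbs]
    omega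
  have h2 : ∀ k, j ≤ k → dig (r k) (p.2 k + (g.2 : ZMod (3 * r k))) = dig (r k) (p.2 k) := by
    intro k hk
    apply dig_small r t hr (hp' k).2
    have := ht k
    rw [Int.abs_eq_natAbs]
    omega
  unfold Phi tau
  simp only
  rw [h1 _ (by omega), h1 _ (by omega), h1 _ (by omega), h1 _ (by omega),
    h2 _ (by omega), h2 _ (by omega), h2 _ (by omega), h2 _ (by omega)]

lemma kap_eq {p : Base r × Base r} (hp : p ∈ Yset (tau r) (Phi r)) (g : ℤ × ℤ) (N : ℕ)
    (h : ∀ j, N ≤ j → Phi r j (tau r g p) = Phi r j p) :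
    kap (tau r) (Phi r) g p = ∑ j ∈ Finset.range N, (Phi r j (tau r g p) - Phi r j p) := by
  classical
  unfold kap
  rw [if_pos hp]
  apply finsum_eq_sum_of_support_subset
  intro j hj
  rw [Function.mem_support] at hj
  simp only [Finset.coe_range, Set.mem_Iio]
  by_contra hcon
  exact hj (sub_eq_zero.mpr (h j (not_lt.mp hcon)))

end Sys

/-! ### the digits of `n` -/

lemma dvd_of_lt (r : ℕ → ℕ) (hdiv : ∀ k, 3 * r k ∣ r (k + 1)) {k i : ℕ} (h : k < i) :
    3 * r k ∣ r i := by
  induction i, h using Nat.le_induction with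
  | base => exact hdiv k
  | succ i _ ih => exact ih.trans ((dvd_mul_left (r i) 3).trans (hdiv i))

lemma residue (r : ℕ → ℕ) (hdiv : ∀ k, 3 * r k ∣ r (k + 1)) (M : ℕ → ℕ) (c : ℕ → ℤ)
    (hc : ∀ k, |c k| ≤ M k) (K : ℕ) (n : ℤ) (hn : n = ∑ k ∈ Finset.range K, (r k : ℤ) * c k)
    (k : ℕ) :
    ∃ e : ℤ, |e| ≤ ((∑ i ∈ Finset.range k, r i * M i : ℕ) : ℤ) ∧
      (n : ZMod (3 * r k)) = (((r k : ℤ) * (if k < K then c k else 0) + e : ℤ)
        : ZMod (3 * r k)) := by
  set c' : ℕ → ℤ := fun i => if i < K then c i else 0 with hc'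
  have hc'M : ∀ i, |c' i| ≤ M i := by
    intro i
    simp only [hc']
    split_ifs
    · exact hc i
    · simp
  refine ⟨∑ i ∈ Finset.range k, (r i : ℤ) * c' i, ?_, ?_⟩
  · refine (Finset.abs_sum_le_sum_abs _ _).trans ?_
    push_cast
    apply Finset.sum_le_sum
    intro i _
    rw [abs_mul, Nat.abs_cast]
    exact mul_le_mul_of_nonneg_left (hc'M i) (by positivity)
  · have h1 : n = ∑ i ∈ Finset.Ico 0 (max K (k + 1)), (r i : ℤ) * c' i := by
      rw [hn, ← Finset.sum_Ico_consecutive _ (Nat.zero_le K) (le_max_left K (k + 1))]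
      have h2 : ∑ i ∈ Finset.Ico K (max K (k + 1)), (r i : ℤ) * c' i = 0 := by
        apply Finset.sum_eq_zero
        intro i hi
        rw [Finset.mem_Ico] at hi
        simp only [hc']
        rw [if_neg (by omega), mul_zero]
      rw [h2, add_zero, Finset.range_eq_Ico]
      apply Finset.sum_congr rfl
      intro i hi
      rw [Finset.mem_Ico] at hi
      simp only [hc']
      rw [if_pos hi.2]
    have hk : k < max K (k + 1) := by omega
    rw [← Finset.sum_Ico_consecutive _ (Nat.zero_le k) hk.le, Finset.sum_eq_sum_Ico_succ_bot hk]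
      at h1
    have h3 : ((∑ i ∈ Finset.Ico (k + 1) (max K (k + 1)), (r i : ℤ) * c' i : ℤ)
        : ZMod (3 * r k)) = 0 := by
      rw [ZMod.intCast_zmod_eq_zero_iff_dvd]
      apply Finset.dvd_sum
      intro i hi
      rw [Finset.mem_Ico] at hi
      apply dvd_mul_of_dvd_left
      exact_mod_cast dvd_of_lt r hdiv (by omega : k < i)
    rw [h1, ← Finset.range_eq_Ico]
    push_cast at h3 ⊢
    rw [h3]
    simp only [hc']
    push_cast
    ring

end Comm

open Comm

/-- (B) the commuting system -/
theorem exists_commuting (r L : ℕ → ℕ) (hL : ∀ j, 0 < L j) (hr : ∀ k, 0 < r k)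
    (hdiv : ∀ k, 3 * r k ∣ r (k + 1))
    (hlow : ∀ k, (∑ i ∈ Finset.range k, (r i : ℝ) * (3 * L (i / 4))) ≤ (1 / 2) ^ k / 10 ^ 6 * r k) :
    ∃ (X : Type) (_ : MeasurableSpace X) (μ : Measure X) (_ : IsProbabilityMeasure μ)
      (T₁ T₂ : X ≃ᵐ X) (F₁ F₂ : X → ℂ),
      MeasurePreserving T₁ μ μ ∧ MeasurePreserving T₂ μ μ ∧ (∀ x, T₁ (T₂ x) = T₂ (T₁ x)) ∧
      Measurable F₁ ∧ Measurable F₂ ∧ (∀ x, ‖F₁ x‖ = 1) ∧ (∀ x, ‖F₂ x‖ = 1) ∧
      ∀ (N : ℕ) (s : ℕ → ℤ) (u : ℕ → Fin 5) (y : ℕ → ℤ),
        (∀ j, |s j| ≤ 2) → (∀ k, |y k| < L (k / 4)) →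
        ∀ n : ℤ, n = ∑ k ∈ Finset.range (4 * N),
            (r k : ℤ) * (s (k / 4) * dir (u (k / 4)) (k % 4) + 3 * y k) →
          ∫ x, ‖F₁ ((T₁.toEquiv ^ n) x) * F₂ ((T₂.toEquiv ^ n) x)
              - (∏ j ∈ Finset.range N, if u j = 4 then zeta ^ (s j) else 1) * (F₁ x * F₂ x)‖ ^ 2 ∂μ
            ≤ 1 / 400 := by
  have inst : ∀ k, NeZero (3 * r k) := fun k => ⟨by have := hr k; omega⟩
  set t : ℕ → ℕ := fun k => ∑ i ∈ Finset.range k, r i * (3 * L (i / 4)) with ht
  have htk : ∀ k, k ≤ t k := by
    intro k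
    simp only [ht]
    calc k = ∑ i ∈ Finset.range k, 1 := by simp
      _ ≤ ∑ i ∈ Finset.range k, r i * (3 * L (i / 4)) := by
        apply Finset.sum_le_sum
        intro i _
        have h1 := hr i
        have h2 := hL (i / 4)
        nlinarith [Nat.mul_le_mul h1 (by omega : 1 ≤ 3 * L (i / 4))]
  have htlow : ∀ k, (t k : ℝ) ≤ (1 / 2) ^ k / 10 ^ 6 * r k := by
    intro k
    refine le_trans (le_of_eq ?_) (hlow k)
    simp only [ht]
    push_cast
    rfl
  set χ : AddChar (ZMod 3) ℂ := ZMod.stdAddChar (N := 3) with hχ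
  have hχnorm : ∀ z : ZMod 3, ‖χ z‖ = 1 := by
    intro z
    rw [hχ, ZMod.stdAddChar_apply]
    exact Circle.norm_coe _
  have hχint : ∀ m : ℤ, χ (m : ZMod 3) = zeta ^ m := by
    intro m
    rw [hχ, ZMod.stdAddChar_coe, zeta, ← Complex.exp_int_mul]
    congr 1
    push_cast
    ring
  refine ⟨(Base r × Base r) × (ZMod 3 × ZMod 3), inferInstance,
    ((mu r).prod (mu r)).prod fib, inferInstance,
    Sequiv (tau_add r) (tau_zero r) (fun g => (tau_mp r g).measurable) (measurable_Phi r) (1, 0),
    Sequiv (tau_add r) (tau_zero r) (fun g => (tau_mp r g).measurable) (measurable_Phi r) (0, 1),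
    fun q => χ q.2.1, fun q => χ q.2.2, ?_, ?_, ?_, ?_, ?_, ?_, ?_, ?_⟩
  · exact Sequiv_measurePreserving (tau_add r) (tau_zero r) (measurable_Phi r) _ _
      (tau_mp r) fib_map (1, 0)
  · exact Sequiv_measurePreserving (tau_add r) (tau_zero r) (measurable_Phi r) _ _
      (tau_mp r) fib_map (0, 1)
  · intro x
    rw [Sequiv_apply, Sequiv_apply, Sequiv_apply, Sequiv_apply,
      ← Smap_add (tau_add r) (tau_zero r), ← Smap_add (tau_add r) (tau_zero r)]
    rw [add_comm]
  · exact (measurable_of_countable χ).comp (measurable_fst.comp measurable_snd)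
  · exact (measurable_of_countable χ).comp (measurable_snd.comp measurable_snd)
  · intro x; exact hχnorm _
  · intro x; exact hχnorm _
  · intro N s u y hs hy n hn
    have hzero : ∀ q : (Base r × Base r) × (ZMod 3 × ZMod 3), q.1 ∈ Good r t →
        χ (((Sequiv (tau_add r) (tau_zero r) (fun g => (tau_mp r g).measurable)
          (measurable_Phi r) (1, 0)).toEquiv ^ n) q).2.1 *
        χ (((Sequiv (tau_add r) (tau_zero r) (fun g => (tau_mp r g).measurable)
          (measurable_Phi r) (0, 1)).toEquiv ^ n) q).2.2 =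
        (∏ j ∈ Finset.range N, if u j = 4 then zeta ^ (s j) else 1) * (χ q.2.1 * χ q.2.2) := by
      intro q hq
      set p := q.1 with hp
      have hp' : ∀ k, gd (r k) (t k) (p.1 k) ∧ gd (r k) (t k) (p.2 k) := hq
      set c : ℕ → ℤ := fun k => s (k / 4) * dir (u (k / 4)) (k % 4) + 3 * y k with hc
      have hdir : ∀ (v : Fin 5) (i : ℕ), |dir v i| ≤ 1 := by
        intro v i
        unfold dir
        split_ifs <;> simp
      have hcM : ∀ k, |c k| ≤ ((3 * L (k / 4) : ℕ) : ℤ) := by
        intro k
        have h1 : |s (k / 4) * dir (u (k / 4)) (k % 4)| ≤ 2 := by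
          rw [abs_mul]
          calc |s (k / 4)| * |dir (u (k / 4)) (k % 4)| ≤ 2 * 1 :=
                mul_le_mul (hs _) (hdir _ _) (abs_nonneg _) (by norm_num)
            _ = 2 := by norm_num
        have h2 : |3 * y k| ≤ 3 * ((L (k / 4) : ℤ) - 1) := by
          rw [abs_mul]
          have := hy k
          simp only [Nat.abs_ofNat]
          linarith [Int.lt_iff_add_one_le.mp this]
        have h3 := abs_add_le (s (k / 4) * dir (u (k / 4)) (k % 4)) (3 * y k)
        simp only [hc]
        push_cast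
        linarith
      have hres := residue r hdiv (fun k => 3 * L (k / 4)) c hcM (4 * N) n hn
      have hdx : ∀ k, dig (r k) (p.1 k + (n : ZMod (3 * r k)))
          = dig (r k) (p.1 k) + ((if k < 4 * N then c k else 0 : ℤ) : ZMod 3) := by
        intro k
        obtain ⟨e, he, hne⟩ := hres k
        rw [hne]
        exact dig_add (r k) (t k) (hr k) _ (hp' k).1 _ e he
      have hdy : ∀ k, dig (r k) (p.2 k + (n : ZMod (3 * r k)))
          = dig (r k) (p.2 k) + ((if k < 4 * N then c k else 0 : ℤ) : ZMod 3) := by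
        intro k
        obtain ⟨e, he, hne⟩ := hres k
        rw [hne]
        exact dig_add (r k) (t k) (hr k) _ (hp' k).2 _ e he
      have hY : p ∈ Yset (tau r) (Phi r) := Good_subset_Yset r t hr htk hq
      have hfar1 : ∀ j, N ≤ j → Phi r j (tau r (n, 0) p) = Phi r j p := by
        intro j hj
        unfold Phi tau
        simp only [hdx, Int.cast_zero, add_zero]
        rw [if_neg (by omega), if_neg (by omega), if_neg (by omega), if_neg (by omega)]
        simp only [Int.cast_zero, add_zero]
      have hfar2 : ∀ j, N ≤ j → Phi r j (tau r (0, n) p) = Phi r j p := by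
        intro j hj
        unfold Phi tau
        simp only [hdy, Int.cast_zero, add_zero]
        rw [if_neg (by omega), if_neg (by omega), if_neg (by omega), if_neg (by omega)]
        simp only [Int.cast_zero, add_zero]
      have hk1 := kap_eq r hY (n, 0) N hfar1
      have hk2 := kap_eq r hY (0, n) N hfar2
      have h3 : (3 : ZMod 3) = 0 := by decide
      have hdig : ∀ j, j < N → ∀ i, i < 4 →
          ((if 4 * j + i < 4 * N then c (4 * j + i) else 0 : ℤ) : ZMod 3)
            = (s j : ZMod 3) * ((dir (u j) i : ℤ) : ZMod 3) := by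
        intro j hj i hi
        rw [if_pos (by omega)]
        simp only [hc]
        have h4 : (4 * j + i) / 4 = j := by omega
        have h5 : (4 * j + i) % 4 = i := by omega
        rw [h4, h5]
        push_cast
        rw [h3]
        ring
      have hsum : (kap (tau r) (Phi r) (n, 0) p).1 + (kap (tau r) (Phi r) (0, n) p).2
          = ∑ j ∈ Finset.range N, if u j = 4 then (s j : ZMod 3) else 0 := by
        rw [hk1, hk2, Prod.fst_sum, Prod.snd_sum, ← Finset.sum_add_distrib]
        apply Finset.sum_congr rfl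
        intro j hj
        rw [Finset.mem_range] at hj
        have hid := cub_identity (dig _ (p.1 (4 * j + 0))) (dig _ (p.1 (4 * j + 1)))
          (dig _ (p.1 (4 * j + 2))) (dig _ (p.1 (4 * j + 3))) (s j : ZMod 3) (u j)
        rw [← hid]
        unfold Phi tau
        simp only [hdx, hdy, Int.cast_zero, add_zero, Prod.fst_sub, Prod.snd_sub]
        have h0 := hdig j hj 0 (by norm_num)
        have h1 := hdig j hj 1 (by norm_num)
        have h2 := hdig j hj 2 (by norm_num)
        have h4 := hdig j hj 3 (by norm_num)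
        simp only [add_zero] at h0
        rw [h0, h1, h2, h4]
        unfold grd
        ring
      rw [Sequiv_zpow, Sequiv_zpow]
      have hn1 : n • ((1, 0) : ℤ × ℤ) = (n, 0) := by simp
      have hn2 : n • ((0, 1) : ℤ × ℤ) = (0, n) := by simp
      rw [hn1, hn2]
      unfold Smap
      simp only [Prod.fst_add, Prod.snd_add]
      rw [← hp, AddChar.map_add_eq_mul, AddChar.map_add_eq_mul]
      have hχsum : χ (kap (tau r) (Phi r) (n, 0) p).1 * χ (kap (tau r) (Phi r) (0, n) p).2
          = ∏ j ∈ Finset.range N, if u j = 4 then zeta ^ (s j) else 1 := by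
        have hprod : ∀ (f : ℕ → ZMod 3) (M : ℕ), χ (∑ j ∈ Finset.range M, f j)
            = ∏ j ∈ Finset.range M, χ (f j) := by
          intro f M
          induction M with
          | zero => simp
          | succ M ih => rw [Finset.sum_range_succ, Finset.prod_range_succ,
              AddChar.map_add_eq_mul, ih]
        rw [← AddChar.map_add_eq_mul, hsum, hprod]
        apply Finset.prod_congr rfl
        intro j _
        split_ifs
        · exact hχint _
        · exact AddChar.map_zero_eq_one χ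
      rw [← hχsum]
      ring
    set bad : Set ((Base r × Base r) × (ZMod 3 × ZMod 3)) := Prod.fst ⁻¹' (Good r t)ᶜ with hbad
    have hbadm : MeasurableSet bad := (measurableSet_Good r t).compl.preimage measurable_fst
    have hbadμ : (((mu r).prod (mu r)).prod fib).real bad ≤ 1 / 10 ^ 5 := by
      have hmp : MeasurePreserving (Prod.fst : (Base r × Base r) × (ZMod 3 × ZMod 3) → _)
          (((mu r).prod (mu r)).prod fib) ((mu r).prod (mu r)) := measurePreserving_fst
      have h1 : (((mu r).prod (mu r)).prod fib) bad ≤ ENNReal.ofReal (1 / 10 ^ 5) := by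
        rw [hbad, hmp.measure_preimage (measurableSet_Good r t).compl.nullMeasurableSet]
        exact measure_Good_compl r t hr htlow
      exact ENNReal.toReal_le_of_le_ofReal (by positivity) h1
    have hw : ‖∏ j ∈ Finset.range N, (if u j = 4 then zeta ^ (s j) else 1 : ℂ)‖ = 1 := by
      rw [norm_prod]
      apply Finset.prod_eq_one
      intro j _
      split_ifs
      · rw [← hχint]
        exact hχnorm _
      · exact norm_one
    calc ∫ x, ‖χ (((Sequiv (tau_add r) (tau_zero r) (fun g => (tau_mp r g).measurable)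
          (measurable_Phi r) (1, 0)).toEquiv ^ n) x).2.1 *
        χ (((Sequiv (tau_add r) (tau_zero r) (fun g => (tau_mp r g).measurable)
          (measurable_Phi r) (0, 1)).toEquiv ^ n) x).2.2 -
        (∏ j ∈ Finset.range N, if u j = 4 then zeta ^ (s j) else 1) * (χ x.2.1 * χ x.2.2)‖ ^ 2
          ∂(((mu r).prod (mu r)).prod fib)
        ≤ ∫ x, bad.indicator (fun _ => (4 : ℝ)) x ∂(((mu r).prod (mu r)).prod fib) := by
          apply integral_mono_of_nonneg
          · exact Filter.Eventually.of_forall fun x => by positivity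
          · exact (integrable_const _).indicator hbadm
          · refine Filter.Eventually.of_forall fun x => ?_
            by_cases hx : x.1 ∈ Good r t
            · have h1 : x ∉ bad := fun h => h hx
              simp only [Set.indicator_of_notMem h1, hzero x hx, sub_self, norm_zero]
              norm_num
            · have h1 : x ∈ bad := hx
              simp only [Set.indicator_of_mem h1]
              have h2 : ‖χ (((Sequiv (tau_add r) (tau_zero r) (fun g => (tau_mp r g).measurable)
                (measurable_Phi r) (1, 0)).toEquiv ^ n) x).2.1 *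
                χ (((Sequiv (tau_add r) (tau_zero r) (fun g => (tau_mp r g).measurable)
                (measurable_Phi r) (0, 1)).toEquiv ^ n) x).2.2 -
                (∏ j ∈ Finset.range N, if u j = 4 then zeta ^ (s j) else 1)
                  * (χ x.2.1 * χ x.2.2)‖ ≤ 2 := by
                refine (norm_sub_le _ _).trans ?_
                rw [norm_mul, norm_mul, norm_mul, hw, hχnorm, hχnorm, hχnorm, hχnorm]
                norm_num
              nlinarith [norm_nonneg (χ (((Sequiv (tau_add r) (tau_zero r)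
                (fun g => (tau_mp r g).measurable)
                (measurable_Phi r) (1, 0)).toEquiv ^ n) x).2.1 *
                χ (((Sequiv (tau_add r) (tau_zero r) (fun g => (tau_mp r g).measurable)
                (measurable_Phi r) (0, 1)).toEquiv ^ n) x).2.2 -
                (∏ j ∈ Finset.range N, if u j = 4 then zeta ^ (s j) else 1)
                  * (χ x.2.1 * χ x.2.2))]
      _ = (((mu r).prod (mu r)).prod fib).real bad * 4 := by
          rw [integral_indicator hbadm, setIntegral_const, smul_eq_mul]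
      _ ≤ 1 / 400 := by
          linarith

end TwoConv
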