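import Mathlib

/-!
# Sequences of integers with prescribed laws of their blocks

For laws `R k` with finite support on the integers there is a sequence of integers `a` such that the
averages of `F (a n)` converge whenever the means of `F` with respect to the laws `R k` do, and such
that, along a sequence of lengths, the averages are close to the means with respect to `R k`.
-/

set_option autoImplicit false

open MeasureTheory Filter Topology

universe u

namespace TwoConv

theorem exists_list (S : Finset ℤ) (c : ℤ → ℕ) :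
    ∃ l : List ℤ, l.length = ∑ n ∈ S, c n ∧
      ∀ (E : Type u) [AddCommMonoid E] (F : ℤ → E), (l.map F).sum = ∑ n ∈ S, c n • F n := by
  classical
  induction S using Finset.induction_on with
  | empty => exact ⟨[], by simp, fun E _ F => by simp⟩
  | insert x S hx ih =>
    obtain ⟨l, h1, h2⟩ := ih
    refine ⟨List.replicate (c x) x ++ l, ?_, fun E _ F => ?_⟩
    · rw [List.length_append, List.length_replicate, h1, Finset.sum_insert hx]
    · rw [List.map_append, List.sum_append, List.map_replicate, List.sum_replicate, h2,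
        Finset.sum_insert hx]

theorem sum_getD {E : Type u} [AddCommMonoid E] (l : List ℤ) (F : ℤ → E) :
    ∑ i ∈ Finset.range l.length, F (l.getD i 0) = (l.map F).sum := by
  induction l with
  | nil => simp
  | cons x l ih =>
    rw [List.length_cons, Finset.sum_range_succ', List.map_cons, List.sum_cons, ← ih, add_comm]
    simp

/-- Approximation of a law by an empirical distribution. -/
theorem exists_emp (R : ℤ →₀ ℝ) (hnn : ∀ n, 0 ≤ R n) (hsum : R.sum (fun _ c => c) = 1)
    (ε : ℝ) (hε : 0 < ε) :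
    ∃ (p : ℕ) (b : ℕ → ℤ), 0 < p ∧ ∀ (E : Type u) [NormedAddCommGroup E] [NormedSpace ℝ E]
      (F : ℤ → E) (C : ℝ), (∀ n, ‖F n‖ ≤ C) →
        ‖∑ i ∈ Finset.range p, F (b i) - (p : ℝ) • R.sum (fun n c => c • F n)‖ ≤ C * (ε * p) := by
  classical
  set S := R.support with hS
  have hne : S.Nonempty := by
    rw [Finset.nonempty_iff_ne_empty]
    intro h
    rw [Finsupp.sum, ← hS, h] at hsum
    simp at hsum
  obtain ⟨n₀, hn₀⟩ := hne
  set m := S.card with hm
  have hm0 : 0 < m := Finset.card_pos.2 ⟨n₀, hn₀⟩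
  obtain ⟨M, hM⟩ := exists_nat_gt (2 * m / ε)
  have hM0 : (0 : ℝ) < M := lt_trans (by positivity) hM
  have hM1 : 2 * (m : ℝ) ≤ ε * M := by
    rw [div_lt_iff₀ hε] at hM
    linarith
  set f : ℤ → ℕ := fun n => ⌊(M : ℝ) * R n⌋₊ with hf
  have hf1 : ∀ n, (f n : ℝ) ≤ M * R n := fun n =>
    Nat.floor_le (mul_nonneg hM0.le (hnn n))
  have hf2 : ∀ n, (M : ℝ) * R n < f n + 1 := fun n => Nat.lt_floor_add_one _
  have hR : ∑ n ∈ S, R n = 1 := hsum
  have hMR : ∑ n ∈ S, (M : ℝ) * R n = M := by rw [← Finset.mul_sum, hR, mul_one]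
  have hle : ∑ n ∈ S, f n ≤ M := by
    have : ((∑ n ∈ S, f n : ℕ) : ℝ) ≤ M := by
      rw [Nat.cast_sum, ← hMR]
      exact Finset.sum_le_sum fun n _ => hf1 n
    exact_mod_cast this
  set r : ℕ := M - ∑ n ∈ S, f n with hr
  have hrr : (r : ℝ) = M - ∑ n ∈ S, (f n : ℝ) := by
    rw [hr, Nat.cast_sub hle, Nat.cast_sum]
  have hrm : (r : ℝ) ≤ m := by
    rw [hrr]
    have h1 : ∑ n ∈ S, ((M : ℝ) * R n - f n) ≤ ∑ n ∈ S, (1 : ℝ) :=
      Finset.sum_le_sum fun n _ => by linarith [hf2 n]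
    rw [Finset.sum_sub_distrib, hMR, Finset.sum_const, nsmul_eq_mul, mul_one] at h1
    exact h1
  set c : ℤ → ℕ := fun n => f n + if n = n₀ then r else 0 with hc
  have hcs : ∑ n ∈ S, c n = M := by
    simp only [hc]
    rw [Finset.sum_add_distrib, Finset.sum_ite_eq' S n₀, if_pos hn₀, hr]
    omega
  obtain ⟨l, hl1, hl2⟩ := exists_list.{u} S c
  rw [hcs] at hl1
  refine ⟨M, fun i => l.getD i 0, by exact_mod_cast hM0, fun E _ _ F C hF => ?_⟩
  have hC : 0 ≤ C := (norm_nonneg _).trans (hF 0)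
  have h1 : ∑ i ∈ Finset.range M, F (l.getD i 0) = ∑ n ∈ S, c n • F n := by
    rw [← hl1, sum_getD, hl2]
  have h2 : (M : ℝ) • R.sum (fun n c => c • F n) = ∑ n ∈ S, ((M : ℝ) * R n) • F n := by
    rw [Finsupp.sum, Finset.smul_sum]
    exact Finset.sum_congr rfl fun n _ => by rw [smul_smul]
  rw [h1, h2, ← Finset.sum_sub_distrib]
  have h3 : ∀ n ∈ S, ‖c n • F n - ((M : ℝ) * R n) • F n‖ ≤
      ((1 : ℝ) + if n = n₀ then (r : ℝ) else 0) * C := by
    intro n _
    have h4 : c n • F n - ((M : ℝ) * R n) • F n = ((c n : ℝ) - M * R n) • F n := by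
      rw [sub_smul, Nat.cast_smul_eq_nsmul]
    rw [h4, norm_smul, Real.norm_eq_abs]
    refine mul_le_mul ?_ (hF n) (norm_nonneg _) (by split_ifs <;> positivity)
    have h5 := hf1 n
    have h6 := hf2 n
    simp only [hc]
    push_cast
    split_ifs
    · rw [abs_le]
      constructor <;> nlinarith [Nat.cast_nonneg (α := ℝ) r]
    · rw [abs_le]
      constructor <;> linarith
  refine (norm_sum_le_of_le S h3).trans ?_
  rw [← Finset.sum_mul, Finset.sum_add_distrib, Finset.sum_ite_eq' S n₀, if_pos hn₀,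
    Finset.sum_const, nsmul_eq_mul, mul_one, mul_comm]
  exact mul_le_mul_of_nonneg_left (by rw [← hm]; linarith) hC

/-- Sums of periodic functions. -/
theorem sum_mod {E : Type u} [AddCommMonoid E] (g : ℕ → E) (p q t : ℕ) (ht : t ≤ p) :
    ∑ i ∈ Finset.range (q * p + t), g (i % p) =
      q • ∑ i ∈ Finset.range p, g i + ∑ i ∈ Finset.range t, g i := by
  have key : ∀ t, t ≤ p → ∀ q, ∑ i ∈ Finset.range t, g ((q * p + i) % p) =
      ∑ i ∈ Finset.range t, g i := by
    intro t ht q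
    refine Finset.sum_congr rfl fun i hi => ?_
    have h1 : i < p := lt_of_lt_of_le (Finset.mem_range.1 hi) ht
    rw [Nat.mul_comm, Nat.mul_add_mod, Nat.mod_eq_of_lt h1]
  rw [Finset.sum_range_add, key t ht]
  congr 1
  induction q with
  | zero => simp
  | succ q ih =>
    rw [Nat.succ_mul, Finset.sum_range_add, ih, key p le_rfl, succ_nsmul]

theorem norm_sum_mod_le {E : Type u} [NormedAddCommGroup E] [NormedSpace ℝ E] (g : ℕ → E) (C : ℝ)
    (hg : ∀ i, ‖g i‖ ≤ C) (p T : ℕ) (hp : 0 < p) (e : ℝ)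
    (he : ‖∑ i ∈ Finset.range p, g i‖ ≤ e * p) :
    ‖∑ i ∈ Finset.range T, g (i % p)‖ ≤ T * e + C * p := by
  have hC : 0 ≤ C := (norm_nonneg _).trans (hg 0)
  have hp' : (0 : ℝ) < p := by exact_mod_cast hp
  have he0 : 0 ≤ e := by
    have := (norm_nonneg _).trans he
    exact nonneg_of_mul_nonneg_left this hp'
  have h1 : T = T / p * p + T % p := (Nat.div_add_mod' T p).symm
  have h2 : T % p < p := Nat.mod_lt _ hp
  rw [h1, sum_mod g p _ _ h2.le]
  refine (norm_add_le _ _).trans (add_le_add ?_ ?_)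
  · rw [← Nat.cast_smul_eq_nsmul ℝ, norm_smul, Real.norm_eq_abs, Nat.abs_cast]
    rw [← h1]
    have h3 : ((T / p : ℕ) : ℝ) * p ≤ T := by exact_mod_cast Nat.div_mul_le_self T p
    calc ((T / p : ℕ) : ℝ) * ‖∑ i ∈ Finset.range p, g i‖ ≤ ((T / p : ℕ) : ℝ) * (e * p) :=
          mul_le_mul_of_nonneg_left he (Nat.cast_nonneg _)
      _ = ((T / p : ℕ) : ℝ) * p * e := by ring
      _ ≤ T * e := mul_le_mul_of_nonneg_right h3 he0
  · refine (norm_sum_le _ _).trans ?_
    refine (Finset.sum_le_sum fun i _ => hg i).trans ?_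
    rw [Finset.sum_const, Finset.card_range, nsmul_eq_mul, mul_comm]
    exact mul_le_mul_of_nonneg_left (by exact_mod_cast h2.le) hC

section build

variable (p : ℕ → ℕ) (b : ℕ → ℕ → ℤ)

/-- The ends of the blocks. -/
def bd : ℕ → ℕ
  | 0 => 0
  | k + 1 => bd k + 4 * (k + 2) * (bd k + p (k + 1)) * p k

variable {p} (hp : ∀ k, 0 < p k)

include hp in
theorem bd_lt (k : ℕ) : bd p k < bd p (k + 1) := by
  rw [bd]
  have h1 := hp k
  have h2 := hp (k + 1)
  have : 0 < 4 * (k + 2) * (bd p k + p (k + 1)) * p k := by positivity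
  omega

include hp in
theorem bd_mono : StrictMono (bd p) := strictMono_nat_of_lt_succ (bd_lt hp)

include hp in
theorem le_bd (k : ℕ) : k ≤ bd p k := (bd_mono hp).id_le k

include hp in
theorem bd_big (k : ℕ) : 4 * (k + 1) * bd p k ≤ bd p (k + 1) := by
  rw [bd]
  have h1 := hp k
  have h2 : 4 * (k + 1) * bd p k ≤ 4 * (k + 2) * (bd p k + p (k + 1)) := by
    gcongr <;> omega
  have h3 : 4 * (k + 2) * (bd p k + p (k + 1)) * 1 ≤ 4 * (k + 2) * (bd p k + p (k + 1)) * p k :=
    Nat.mul_le_mul_left _ h1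
  omega

include hp in
theorem bd_big' (k : ℕ) : (k + 1) * p (k + 1) ≤ bd p (k + 1) := by
  rw [bd]
  have h1 := hp k
  have h2 : (k + 1) * p (k + 1) ≤ 4 * (k + 2) * (bd p k + p (k + 1)) := by
    gcongr <;> omega
  have h3 : 4 * (k + 2) * (bd p k + p (k + 1)) * 1 ≤ 4 * (k + 2) * (bd p k + p (k + 1)) * p k :=
    Nat.mul_le_mul_left _ h1
  omega

include hp in
theorem exists_blk (i : ℕ) : ∃ k, i < bd p (k + 1) :=
  ⟨i, lt_of_lt_of_le (Nat.lt_succ_self i) (le_bd hp (i + 1))⟩

/-- The sequence. -/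
noncomputable def sq (i : ℕ) : ℤ :=
  b (Nat.find (exists_blk hp i)) ((i - bd p (Nat.find (exists_blk hp i))) %
    p (Nat.find (exists_blk hp i)))

theorem sq_eq {i k : ℕ} (h1 : bd p k ≤ i) (h2 : i < bd p (k + 1)) :
    sq b hp i = b k ((i - bd p k) % p k) := by
  have h : Nat.find (exists_blk hp i) = k := by
    rw [Nat.find_eq_iff]
    refine ⟨h2, fun n hn => ?_⟩
    rw [not_lt]
    exact ((bd_mono hp).monotone (by omega)).trans h1
  unfold sq
  rw [h]

theorem sum_sq {E : Type u} [AddCommMonoid E] (F : ℤ → E) {k T : ℕ}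
    (hT : bd p k + T ≤ bd p (k + 1)) :
    ∑ i ∈ Finset.range (bd p k + T), F (sq b hp i) =
      ∑ i ∈ Finset.range (bd p k), F (sq b hp i) + ∑ i ∈ Finset.range T, F (b k (i % p k)) := by
  rw [Finset.sum_range_add]
  congr 1
  refine Finset.sum_congr rfl fun i hi => ?_
  have := Finset.mem_range.1 hi
  rw [sq_eq b hp (k := k) (by omega) (by omega), Nat.add_sub_cancel_left]

end build

theorem exists_between {s : ℕ → ℕ} (hs : StrictMono s) (K N : ℕ) (h : s K ≤ N) :
    ∃ k, K ≤ k ∧ s k ≤ N ∧ N < s (k + 1) := by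
  classical
  have hex : ∃ k, N < s (k + 1) := ⟨N, lt_of_lt_of_le (Nat.lt_succ_self N) (hs.id_le (N + 1))⟩
  refine ⟨Nat.find hex, ?_, ?_, Nat.find_spec hex⟩
  · by_contra hlt
    have h1 := Nat.find_spec hex
    have h2 : s (Nat.find hex + 1) ≤ s K := hs.monotone (by omega)
    omega
  · by_contra hlt
    push Not at hlt
    rcases Nat.eq_zero_or_pos (Nat.find hex) with h0 | h0
    · rw [h0] at hlt
      have h2 : s 0 ≤ s K := hs.monotone (Nat.zero_le _)
      omega
    · have h2 := Nat.find_min hex (m := Nat.find hex - 1) (by omega)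
      rw [show Nat.find hex - 1 + 1 = Nat.find hex by omega] at h2
      omega

theorem sum_Icc_one {E : Type u} [AddCommMonoid E] (f : ℕ → E) (N : ℕ) :
    ∑ n ∈ Finset.Icc 1 N, f (n - 1) = ∑ i ∈ Finset.range N, f i := by
  induction N with
  | zero => simp
  | succ N ih =>
    rw [Finset.sum_Icc_succ_top (by omega), ih, Finset.sum_range_succ]
    simp

/-- (S) sequence building -/
theorem exists_seq (R : ℕ → (ℤ →₀ ℝ)) (hnn : ∀ k n, 0 ≤ R k n)
    (hsum : ∀ k, (R k).sum (fun _ c => c) = 1) :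
    ∃ a : ℕ → ℤ, ∀ (E : Type u) [NormedAddCommGroup E] [NormedSpace ℝ E] (F : ℤ → E) (C : ℝ),
      (∀ n, ‖F n‖ ≤ C) →
      (∀ l : E, Tendsto (fun k => (R k).sum (fun n c => c • F n)) atTop (𝓝 l) →
        Tendsto (fun N : ℕ => (N : ℝ)⁻¹ • ∑ n ∈ Finset.Icc 1 N, F (a n)) atTop (𝓝 l)) ∧
      (∃ N : ℕ → ℕ, Tendsto N atTop atTop ∧ ∀ k,
        ‖(N k : ℝ)⁻¹ • ∑ n ∈ Finset.Icc 1 (N k), F (a n) - (R k).sum (fun n c => c • F n)‖
          ≤ C / (k + 1)) := by
  classical
  have hex := fun k : ℕ => exists_emp.{u} (R k) (hnn k) (hsum k) (1 / (2 * ((k : ℝ) + 1)))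
    (by positivity)
  choose p b hp hb using hex
  -- the second assertion for sums over `range`
  have key : ∀ (E : Type u) [NormedAddCommGroup E] [NormedSpace ℝ E] (F : ℤ → E) (C : ℝ),
      (∀ n, ‖F n‖ ≤ C) → ∀ k, ‖∑ i ∈ Finset.range (bd p (k + 1)), F (sq b hp i) -
        (bd p (k + 1) : ℝ) • (R k).sum (fun n c => c • F n)‖ ≤ C / (k + 1) * bd p (k + 1) := by
    intro E _ _ F C hF k
    have hC : 0 ≤ C := (norm_nonneg _).trans (hF 0)
    set v := (R k).sum (fun n c => c • F n) with hv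
    set q := 4 * (k + 2) * (bd p k + p (k + 1)) with hq
    have h1 : bd p (k + 1) = bd p k + q * p k := by rw [bd]
    have h2 := sum_sq b hp F (k := k) (T := q * p k) (by rw [h1])
    have h3 := sum_mod (fun i => F (b k i)) (p k) q 0 (Nat.zero_le _)
    rw [add_zero, Finset.range_zero, Finset.sum_empty, add_zero] at h3
    have hvn : ‖v‖ ≤ C := by
      rw [hv, Finsupp.sum]
      refine (norm_sum_le_of_le (R k).support (fun n _ => ?_) :
        _ ≤ ∑ n ∈ (R k).support, R k n * C).trans ?_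
      · rw [norm_smul, Real.norm_eq_abs, abs_of_nonneg (hnn k n)]
        exact mul_le_mul_of_nonneg_left (hF n) (hnn k n)
      · rw [← Finset.sum_mul]
        have := hsum k
        rw [Finsupp.sum] at this
        rw [this, one_mul]
    have h4 : ∑ i ∈ Finset.range (bd p (k + 1)), F (sq b hp i) - (bd p (k + 1) : ℝ) • v =
        (∑ i ∈ Finset.range (bd p k), F (sq b hp i) - (bd p k : ℝ) • v) +
          (q : ℝ) • (∑ i ∈ Finset.range (p k), F (b k i) - (p k : ℝ) • v) := by
      rw [h1, h2, h3, smul_sub, smul_smul, ← Nat.cast_smul_eq_nsmul ℝ]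
      push_cast
      rw [add_smul]
      abel
    rw [h4]
    refine (norm_add_le _ _).trans ?_
    have h5 : ‖∑ i ∈ Finset.range (bd p k), F (sq b hp i) - (bd p k : ℝ) • v‖ ≤
        2 * C * bd p k := by
      refine (norm_sub_le _ _).trans ?_
      have h6 : ‖∑ i ∈ Finset.range (bd p k), F (sq b hp i)‖ ≤ bd p k * C := by
        refine (norm_sum_le _ _).trans ?_
        refine (Finset.sum_le_sum fun i _ => hF _).trans ?_
        rw [Finset.sum_const, Finset.card_range, nsmul_eq_mul]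
      have h7 : ‖(bd p k : ℝ) • v‖ ≤ bd p k * C := by
        rw [norm_smul, Real.norm_eq_abs, Nat.abs_cast]
        exact mul_le_mul_of_nonneg_left hvn (Nat.cast_nonneg _)
      linarith
    have h6 : ‖(q : ℝ) • (∑ i ∈ Finset.range (p k), F (b k i) - (p k : ℝ) • v)‖ ≤
        q * (C * (1 / (2 * ((k : ℝ) + 1)) * p k)) := by
      rw [norm_smul, Real.norm_eq_abs, Nat.abs_cast]
      exact mul_le_mul_of_nonneg_left (hb k E F C hF) (Nat.cast_nonneg _)
    have h7 : (4 : ℝ) * (k + 1) * bd p k ≤ bd p (k + 1) := by exact_mod_cast bd_big hp k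
    have h8 : (q : ℝ) * p k ≤ bd p (k + 1) := by
      rw [h1]
      push_cast
      linarith [Nat.cast_nonneg (α := ℝ) (bd p k)]
    have hk : (0 : ℝ) < (k : ℝ) + 1 := by positivity
    calc _ ≤ 2 * C * bd p k + q * (C * (1 / (2 * ((k : ℝ) + 1)) * p k)) := add_le_add h5 h6
      _ = C / (2 * (k + 1)) * (4 * (k + 1) * bd p k) + C / (2 * (k + 1)) * (q * p k) := by
        field_simp
        ring
      _ ≤ C / (2 * (k + 1)) * bd p (k + 1) + C / (2 * (k + 1)) * bd p (k + 1) := by
        gcongr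
      _ = C / (k + 1) * bd p (k + 1) := by
        field_simp
        ring
  refine ⟨fun n => sq b hp (n - 1), fun E _ _ F C hF => ⟨fun l hl => ?_, ?_⟩⟩
  · have hsumI : ∀ N : ℕ, ∑ n ∈ Finset.Icc 1 N, F (sq b hp (n - 1)) =
        ∑ i ∈ Finset.range N, F (sq b hp i) := fun N => sum_Icc_one (fun i => F (sq b hp i)) N
    simp only [hsumI]
    set G : ℤ → E := fun n => F n - l with hG
    set D : ℝ := C + ‖l‖ with hD
    have hGn : ∀ n, ‖G n‖ ≤ D := fun n => (norm_sub_le _ _).trans (by linarith [hF n])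
    have hD0 : 0 ≤ D := (norm_nonneg _).trans (hGn 0)
    have hRG : ∀ k, (R k).sum (fun n c => c • G n) = (R k).sum (fun n c => c • F n) - l := by
      intro k
      simp only [hG, Finsupp.sum, smul_sub]
      rw [Finset.sum_sub_distrib, ← Finset.sum_smul]
      have := hsum k
      rw [Finsupp.sum] at this
      rw [this, one_smul]
    have hR0 : Tendsto (fun k => ‖(R k).sum (fun n c => c • G n)‖) atTop (𝓝 0) := by
      simp only [hRG]
      rw [← tendsto_iff_norm_sub_tendsto_zero]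
      exact hl
    have hD1 : Tendsto (fun k : ℕ => D / ((k : ℝ) + 1)) atTop (𝓝 0) :=
      tendsto_const_nhds.div_atTop (tendsto_natCast_atTop_atTop.atTop_add tendsto_const_nhds)
    rw [Metric.tendsto_atTop]
    intro ε hε
    obtain ⟨K₁, hK₁⟩ := Metric.tendsto_atTop.1 hR0 (ε / 8) (by positivity)
    obtain ⟨K₂, hK₂⟩ := Metric.tendsto_atTop.1 hD1 (ε / 8) (by positivity)
    set K := max K₁ K₂ with hK
    refine ⟨bd p (K + 1), fun N hN => ?_⟩
    obtain ⟨k, hk, hk1, hk2⟩ := exists_between (bd_mono hp) (K + 1) N hN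
    obtain ⟨j, rfl⟩ : ∃ j, k = j + 1 := ⟨k - 1, by omega⟩
    have hb0 : 0 < bd p (j + 1) := lt_of_lt_of_le (Nat.succ_pos j) (le_bd hp (j + 1))
    have hb0' : (0 : ℝ) < bd p (j + 1) := by exact_mod_cast hb0
    have hN0 : (0 : ℝ) < N := lt_of_lt_of_le hb0' (by exact_mod_cast hk1)
    have a1 : ∀ i, K ≤ i → ‖(R i).sum (fun n c => c • G n)‖ < ε / 8 := by
      intro i hi
      have := hK₁ i ((le_max_left _ _).trans hi)
      rwa [Real.dist_eq, sub_zero, abs_of_nonneg (norm_nonneg _)] at this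
    have a2 : ∀ i, K ≤ i → D / ((i : ℝ) + 1) < ε / 8 := by
      intro i hi
      have := hK₂ i ((le_max_right _ _).trans hi)
      rwa [Real.dist_eq, sub_zero, abs_of_nonneg (by positivity)] at this
    -- the sum up to the beginning of the block
    have c1 : ‖∑ i ∈ Finset.range (bd p (j + 1)), G (sq b hp i)‖ ≤ ε / 4 * bd p (j + 1) := by
      have h1 := key E G D hGn j
      have h2 := norm_sub_norm_le (∑ i ∈ Finset.range (bd p (j + 1)), G (sq b hp i))
        ((bd p (j + 1) : ℝ) • (R j).sum (fun n c => c • G n))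
      rw [norm_smul, Real.norm_eq_abs, Nat.abs_cast] at h2
      have h3 := a1 j (by omega)
      have h4 := a2 j (by omega)
      have h5 : (bd p (j + 1) : ℝ) * ‖(R j).sum (fun n c => c • G n)‖ ≤
          bd p (j + 1) * (ε / 8) := mul_le_mul_of_nonneg_left h3.le hb0'.le
      have h6 : D / (j + 1) * bd p (j + 1) ≤ ε / 8 * bd p (j + 1) :=
        mul_le_mul_of_nonneg_right h4.le hb0'.le
      linarith
    -- the sum over the part of the block
    obtain ⟨T, rfl⟩ : ∃ T, N = bd p (j + 1) + T := ⟨N - bd p (j + 1), by omega⟩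
    have c2 : ‖∑ i ∈ Finset.range T, G (b (j + 1) (i % p (j + 1)))‖ ≤
        T * (ε / 4) + ε / 8 * bd p (j + 1) := by
      have h1 := hb (j + 1) E G D hGn
      have h2 := norm_sub_norm_le (∑ i ∈ Finset.range (p (j + 1)), G (b (j + 1) i))
        ((p (j + 1) : ℝ) • (R (j + 1)).sum (fun n c => c • G n))
      rw [norm_smul, Real.norm_eq_abs, Nat.abs_cast] at h2
      have h3 := a1 (j + 1) (by omega)
      have h4 := a2 (j + 1) (by omega)
      have hp' : (0 : ℝ) < p (j + 1) := by exact_mod_cast hp (j + 1)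
      have h5 : (p (j + 1) : ℝ) * ‖(R (j + 1)).sum (fun n c => c • G n)‖ ≤
          p (j + 1) * (ε / 8) := mul_le_mul_of_nonneg_left h3.le hp'.le
      have h6 : D * (1 / (2 * (((j + 1 : ℕ) : ℝ) + 1)) * p (j + 1)) ≤ ε / 8 * p (j + 1) := by
        have h7 : D * (1 / (2 * (((j + 1 : ℕ) : ℝ) + 1))) ≤ ε / 8 := by
          have h8 : D * (1 / (2 * (((j + 1 : ℕ) : ℝ) + 1))) = D / (((j + 1 : ℕ) : ℝ) + 1) / 2 := by
            field_simp
          rw [h8]
          have h9 : 0 ≤ D / (((j + 1 : ℕ) : ℝ) + 1) := by positivity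
          linarith
        calc _ = D * (1 / (2 * (((j + 1 : ℕ) : ℝ) + 1))) * p (j + 1) := by ring
          _ ≤ _ := mul_le_mul_of_nonneg_right h7 hp'.le
      have h7 := norm_sum_mod_le (fun i => G (b (j + 1) i)) D (fun i => hGn _) (p (j + 1)) T
        (hp (j + 1)) (ε / 4) (by linarith)
      refine h7.trans (add_le_add le_rfl ?_)
      have h8 : ((j : ℝ) + 1) * p (j + 1) ≤ bd p (j + 1) := by exact_mod_cast bd_big' hp j
      have h9 := a2 j (by omega)
      calc D * p (j + 1) = D / ((j : ℝ) + 1) * (((j : ℝ) + 1) * p (j + 1)) := by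
            field_simp
        _ ≤ ε / 8 * bd p (j + 1) := by
            refine mul_le_mul h9.le h8 (by positivity) (by positivity)
    have c3 : ‖∑ i ∈ Finset.range (bd p (j + 1) + T), G (sq b hp i)‖ ≤
        3 / 4 * ε * ((bd p (j + 1) + T : ℕ) : ℝ) := by
      rw [sum_sq b hp G hk2.le]
      refine (norm_add_le _ _).trans ?_
      push_cast
      nlinarith [Nat.cast_nonneg (α := ℝ) T]
    rw [dist_eq_norm]
    have c4 : ((bd p (j + 1) + T : ℕ) : ℝ)⁻¹ • ∑ i ∈ Finset.range (bd p (j + 1) + T),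
        F (sq b hp i) - l = ((bd p (j + 1) + T : ℕ) : ℝ)⁻¹ •
          ∑ i ∈ Finset.range (bd p (j + 1) + T), G (sq b hp i) := by
      simp only [hG]
      rw [Finset.sum_sub_distrib, Finset.sum_const, Finset.card_range, smul_sub,
        ← Nat.cast_smul_eq_nsmul ℝ, smul_smul, inv_mul_cancel₀ hN0.ne', one_smul]
    rw [c4, norm_smul, norm_inv, Real.norm_eq_abs, Nat.abs_cast, inv_mul_lt_iff₀ hN0]
    refine lt_of_le_of_lt c3 ?_
    nlinarith
  · refine ⟨fun k => bd p (k + 1), ?_, fun k => ?_⟩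
    · exact ((bd_mono hp).tendsto_atTop).comp (tendsto_add_atTop_nat 1)
    · have hsumI : ∑ n ∈ Finset.Icc 1 (bd p (k + 1)), F (sq b hp (n - 1)) =
          ∑ i ∈ Finset.range (bd p (k + 1)), F (sq b hp i) :=
        sum_Icc_one (fun i => F (sq b hp i)) _
      rw [hsumI]
      have hb0 : 0 < bd p (k + 1) := lt_of_lt_of_le (Nat.succ_pos k) (le_bd hp (k + 1))
      have hb0' : (0 : ℝ) < bd p (k + 1) := by exact_mod_cast hb0
      have h1 := key E F C hF k
      have h2 : (bd p (k + 1) : ℝ)⁻¹ • ∑ i ∈ Finset.range (bd p (k + 1)), F (sq b hp i) -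
          (R k).sum (fun n c => c • F n) = (bd p (k + 1) : ℝ)⁻¹ •
            (∑ i ∈ Finset.range (bd p (k + 1)), F (sq b hp i) -
              (bd p (k + 1) : ℝ) • (R k).sum (fun n c => c • F n)) := by
        rw [smul_sub, smul_smul, inv_mul_cancel₀ hb0'.ne', one_smul]
      rw [h2, norm_smul, norm_inv, Real.norm_eq_abs, Nat.abs_cast, inv_mul_le_iff₀ hb0']
      linarith

end TwoConv
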